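import Pool.Agent.H29.Funtf

namespace Pool.Agent.Results.MP_580194_an.All

theorem result (n N : ℕ) (h1 : 1 ≤ n) (hN : n ≤ N) :
    ∃ (x : Fin N → PiLp 1 (fun _ : Fin n => ℝ))
      (f : Fin N → (PiLp 1 (fun _ : Fin n => ℝ) →L[ℝ] ℝ)),
      (∀ i, ‖x i‖ = 1 ∧ ‖f i‖ = 1 ∧ f i (x i) = 1) ∧
      ∀ y, ∑ i, f i y • x i = ((N : ℝ) / n) • y :=
  Pool.Agent.H29.Funtf.exists_funtf (𝕜 := ℝ) (by rw [(WithLp.linearEquiv 1 ℝ (Fin n → ℝ)).finrank_eq]; simp) h1 hN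

end Pool.Agent.Results.MP_580194_an.All
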